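import Mathlib
import Pool.Agent.Run7.h563.Dir1
import Pool.Agent.Run7.h563.Dir2

/-!
Over `RCA₀`, Carlson's theorem for words (`CT`) and Carlson's theorem for located words
(`CT_loc`) are equivalent, for each alphabet and each number of colours. The new direction is
that `CT` implies `CT_loc`.

`L2Structure` (structures for the language of second-order arithmetic, Henkin semantics) and
`IsModelRCA0` are in `Pool.Agent.Helper617.RM.Defs`; words, located words, `CT` and `CTLoc` are
defined in `Pool.Agent.Run7.h563.Defs`.

Idea of the new direction: a word `u` of length `n = ∑_{i ∈ I} 2 ^ i` is sent to the located word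
`D u` with domain `⋃_{i ∈ I} [2 ^ i, 2 ^ (i + 1))` whose values, in increasing order of the
positions, are the letters of `u`. If `n < 2 ^ K` and `2 ^ K` divides the length of `v`, then
`D (u v) = D u ∪ D v` and `D u < D v`. A solution `(w_n)` of `CT` for the colouring `f ∘ D` is
thinned out to blocks of consecutive words whose lengths are divisible by rapidly growing powers
of two (pigeonhole principle for the prefix sums of the lengths), and `D` maps the blocks to a
solution of `CT_loc` for `f`.
-/

namespace Pool.Agent.Results.MP_2ae72d_lc.WordsIffLocated

open Pool.Agent.Helper617.RM Run7.h563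

universe u

/-- In every model `N` of `RCA₀`: for all alphabets `{x | x < a}`, `a > 0`, and all numbers `k` of
colours, Carlson's theorem for words and Carlson's theorem for located words are equivalent;
in particular `CT` and `CT_loc` are equivalent. -/
theorem result (N : L2Structure.{u}) (hN : IsModelRCA0 N) :
    (∀ a k : N.M, N.lt N.zero a → (CTFor N a k ↔ CTLocFor N a k)) ∧ (CT N ↔ CTLoc N) := by
  have h : ∀ a k : N.M, N.lt N.zero a → (CTFor N a k ↔ CTLocFor N a k) :=
    fun a k ha => ⟨loc_of_words ha, words_of_loc ha⟩
  exact ⟨h, fun h1 a k ha => (h a k ha).1 (h1 a k ha), fun h1 a k ha => (h a k ha).2 (h1 a k ha)⟩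

end Pool.Agent.Results.MP_2ae72d_lc.WordsIffLocated
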